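import Mathlib

set_option autoImplicit false

namespace Pool.Agent.Results.MP_a21721_al.Solution

def m (k : ZMod 6) : ZMod 7 := 3 ^ k.val

lemma m_add : ∀ k l : ZMod 6, m (k + l) = m k * m l := by decide
lemma m_neg : ∀ k : ZMod 6, m k * m (-k) = 1 := by decide
lemma m_zero : m 0 = 1 := by decide

/-- the matrix with rows (1,x,u,w), (0,t,y,v), (0,0,1,z), (0,0,0,1/t) over F_7, where t = 3^k -/
@[ext] structure T where
  k : ZMod 6
  x : ZMod 7
  y : ZMod 7
  z : ZMod 7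
  u : ZMod 7
  v : ZMod 7
  w : ZMod 7
deriving DecidableEq

instance : Mul T := ⟨fun p q => ⟨p.k + q.k, q.x + p.x * m q.k, m p.k * q.y + p.y,
  q.z + p.z * m (-q.k), q.u + p.x * q.y + p.u, m p.k * q.v + p.y * q.z + p.v * m (-q.k),
  q.w + p.x * q.v + p.u * q.z + p.w * m (-q.k)⟩⟩
instance : One T := ⟨⟨0, 0, 0, 0, 0, 0, 0⟩⟩
instance : Inv T := ⟨fun p => ⟨-p.k, -p.x * m (-p.k), -m (-p.k) * p.y, -p.z * m p.k,
  -p.u + p.x * m (-p.k) * p.y, -p.v + p.y * p.z,
  -m p.k * p.w + p.x * p.v + m p.k * p.u * p.z - p.x * p.y * p.z⟩⟩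

lemma mul_def (p q : T) : p * q = ⟨p.k + q.k, q.x + p.x * m q.k, m p.k * q.y + p.y,
  q.z + p.z * m (-q.k), q.u + p.x * q.y + p.u, m p.k * q.v + p.y * q.z + p.v * m (-q.k),
  q.w + p.x * q.v + p.u * q.z + p.w * m (-q.k)⟩ := rfl
lemma one_def : (1 : T) = ⟨0, 0, 0, 0, 0, 0, 0⟩ := rfl
lemma inv_def (p : T) : p⁻¹ = ⟨-p.k, -p.x * m (-p.k), -m (-p.k) * p.y, -p.z * m p.k,
  -p.u + p.x * m (-p.k) * p.y, -p.v + p.y * p.z,
  -m p.k * p.w + p.x * p.v + m p.k * p.u * p.z - p.x * p.y * p.z⟩ := rfl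

instance : Group T := Group.ofLeftAxioms
  (by
    intro p q r
    ext <;> simp only [mul_def, m_add, neg_add] <;> ring)
  (by
    intro p
    ext <;> simp [mul_def, one_def, m_zero])
  (by
    intro p
    have h := m_neg p.k
    ext <;> simp only [mul_def, inv_def, one_def]
    · ring
    · linear_combination (-p.x) * h
    · ring
    · linear_combination (-p.z) * h
    · ring
    · ring
    · linear_combination (p.u * p.z - p.w) * h)

def pr : T →* Multiplicative (ZMod 6) :=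
  MonoidHom.mk' (fun p => Multiplicative.ofAdd p.k) (fun _ _ => rfl)

instance : Finite T :=
  Finite.of_injective (fun p : T => (p.k, p.x, p.y, p.z, p.u, p.v, p.w)) (by
    intro p q h
    simp only [Prod.mk.injEq] at h
    ext <;> tauto)

lemma pow7 (p : T) (h : p.k = 0) : p ^ 7 = 1 := by
  have h7 : (7 : ZMod 7) = 0 := rfl
  have e : p ^ 7 = p * p * p * p * p * p * p := by simp only [pow_succ, pow_zero, one_mul]
  rw [e]
  ext <;> simp only [mul_def, one_def, h, add_zero, neg_zero, m_zero]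
  · linear_combination p.x * h7
  · linear_combination p.y * h7
  · linear_combination p.z * h7
  · linear_combination (p.u + 3 * p.x * p.y) * h7
  · linear_combination (p.v + 3 * p.y * p.z) * h7
  · linear_combination (p.w + 3 * p.x * p.v + 3 * p.u * p.z + 5 * p.x * p.y * p.z) * h7

lemma solv : Group.IsSolvable T := by
  haveI : Fact (Nat.Prime 7) := ⟨by norm_num⟩
  have hp : IsPGroup 7 pr.ker := by
    intro g
    refine ⟨1, Subtype.ext ?_⟩
    rw [pow_one]
    exact pow7 g.1 g.2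
  haveI := hp.isNilpotent
  exact Group.isSolvable_of_ker_le_range pr.ker.subtype pr (by simp)

def a : T := ⟨1, 0, 0, 0, 0, 0, 0⟩
def c : T := ⟨0, 0, 0, 0, 0, 0, 1⟩
def h : T := ⟨0, 1, 1, 6, 5, 3, 0⟩

def K : Subgroup T where
  carrier := {p | p.x = 0 ∧ p.y = 0 ∧ p.z = 0 ∧ p.u = 0 ∧ p.v = 0}
  one_mem' := ⟨rfl, rfl, rfl, rfl, rfl⟩
  mul_mem' := by
    rintro p q ⟨h1, h2, h3, h4, h5⟩ ⟨g1, g2, g3, g4, g5⟩
    simp [mul_def, *]
  inv_mem' := by
    rintro p ⟨h1, h2, h3, h4, h5⟩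
    simp [inv_def, *]

lemma clos : Subgroup.closure {a, c} = K := by
  apply le_antisymm
  · rw [Subgroup.closure_le]
    rintro _ (rfl | rfl) <;> exact ⟨rfl, rfl, rfl, rfl, rfl⟩
  · rintro ⟨k, x, y, z, u, v, w⟩ ⟨rfl, rfl, rfl, rfl, rfl⟩
    have : ∀ (k : ZMod 6) (w : ZMod 7), (⟨k, 0, 0, 0, 0, 0, w⟩ : T) = a ^ k.val * c ^ w.val := by
      decide +kernel
    show (⟨k, 0, 0, 0, 0, 0, w⟩ : T) ∈ _
    rw [this]
    exact Subgroup.mul_mem _ (Subgroup.pow_mem _ (Subgroup.subset_closure (by simp)) _)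
      (Subgroup.pow_mem _ (Subgroup.subset_closure (by simp)) _)

lemma cardK : Nat.card K = 42 := by
  have e : K ≃ ZMod 6 × ZMod 7 :=
    { toFun := fun p => (p.1.k, p.1.w)
      invFun := fun q => ⟨⟨q.1, 0, 0, 0, 0, 0, q.2⟩, rfl, rfl, rfl, rfl, rfl⟩
      left_inv := by
        rintro ⟨p, h1, h2, h3, h4, h5⟩
        apply Subtype.ext
        ext <;> simp [*]
      right_inv := fun q => rfl }
  rw [Nat.card_congr e]
  simp

/-- A finite solvable group `H` containing the Frobenius group `⟨c⟩₇ ⋊ ⟨a⟩₆` (`c^a = c^5`) of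
order 42 and a solution `h` of `h · h^(-a) · h^(a²) = c`. -/
theorem result : ∃ (H : Type) (_ : Group H) (a c h : H), Group.IsSolvable H ∧ Finite H ∧
    orderOf a = 6 ∧ orderOf c = 7 ∧ a⁻¹ * c * a = c ^ 5 ∧
    Nat.card (Subgroup.closure ({a, c} : Set H)) = 42 ∧
    h * (a⁻¹ * h⁻¹ * a) * ((a ^ 2)⁻¹ * h * a ^ 2) = c := by
  refine ⟨T, inferInstance, a, c, h, solv, inferInstance, ?_, ?_, by decide +kernel,
    by rw [clos, cardK], by decide +kernel⟩
  · rw [orderOf_eq_iff (by norm_num)]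
    refine ⟨by decide +kernel, fun n hn h0 => ?_⟩
    interval_cases n <;> decide +kernel
  · rw [orderOf_eq_iff (by norm_num)]
    refine ⟨by decide +kernel, fun n hn h0 => ?_⟩
    interval_cases n <;> decide +kernel

end Pool.Agent.Results.MP_a21721_al.Solution
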